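import Pool.Agent.MP_aea6d5_co.PFinal

/-!
Polynomial gains in the concatenation inequality for lattice knots, and a polynomial upper bound for
the number of unknotted polygons of the simple cubic lattice.

Write `p n K` for the number of polygons with `n` edges and knot type `K`, up to translation. The
known inequality is `p n K * p m L ≤ 2 * p (n + m) (K # L)`. We prove
`min n m * p n K * p m L ≤ C * (n + m) ^ (1/3) * p (n + m + c) (K # L)`, a gain of the factor
`n ^ (2/3)` for `n = m`. Hence, if the asymptotic form of Q1 holds for `K`, `L` and `K # L` with the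
same growth rate, then the exponents satisfy `α_{K # L} ≥ α_K + α_L - 7/3`. For the unknot we get
`p n ≤ C * n ^ (-2/3) * μ ^ n` for all `n`, with the growth rate `μ`, and hence `α ≤ 7/3`. The same
holds for the number of all polygons.

Outline of the proof.
* Contacts. For polygons `P`, `Q` let `D` be the set of differences of vertices. Over each point of
  the projection of `D` to the `xy`-plane take the last point at distance at most `R` (a large
  constant) of `D`. The nearest point `d` of `D` gives a position of `Q` above `P` where `P` and
  `Q` lie locally in opposite half spaces. There are at least a constant times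
  `max (n, m) ^ (2/3)` different contacts `d` for a third of all pairs (Loomis-Whitney inequality and
  symmetry).
* Surgery. A bounded number of bumps and flips of `P` near the contact produces a tongue whose tip
  is a horizontal edge which points upwards; the same for `Q` downwards. The two tips are joined.
  All moves are realised by homeomorphisms of bounded support.
* Decoding. A cut of a joined polygon at a given place determines the pair and the contact up to
  boundedly many choices. The smaller parts of cuts which are far from each other are disjoint, so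
  there are at most a constant times `(n + m) / min (n, m)` places for cuts into parts of the given
  lengths.
* For unknotted parts: a vertical shear flattens a surface between `P` and `Q`. A version for pairs
  of Brown's theorem on monotone unions of open cells shows that the joined polygon is unknotted if
  both parts are. The pointwise bound follows by iteration.
-/

set_option autoImplicit false

namespace Pool.Agent.Results.MP_aea6d5_co.PairTwoThirds

open Pool.Agent.LK Filter Topology

/-- The class of unknotted lattice polygons. -/
def Unknot (E : Finset (Sym2 P3)) : Prop := IsPolygon E ∧ Unknotted E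

/-- The class of lattice polygons which have the same knot type as `K` with respect to the group
`G` of homeomorphisms of space. -/
def OfType (G : Subgroup (R3 ≃ₜ R3)) (K E : Finset (Sym2 P3)) : Prop :=
  IsPolygon E ∧ ∃ φ ∈ G, φ '' body K = body E

/-- The class of lattice polygons which are a connected sum of knots of the types of `K` and `L`:
those of the type of a stacked join of a polygon of the type of `K` and a polygon of the type of `L`
above it. -/
def ConnSum (G : Subgroup (R3 ≃ₜ R3)) (K L R : Finset (Sym2 P3)) : Prop :=
  ∃ (E F : Finset (Sym2 P3)) (x y h : ℤ), OfType G K E ∧ OfType G L F ∧ Below E F ∧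
    s((x, y, h), (x + 1, y, h)) ∈ E ∧ s((x, y, h + 1), (x + 1, y, h + 1)) ∈ F ∧
    OfType G (joinZ E F x y h) R

/-- `min n m * p n * q m ≤ C * (n + m) ^ (1/3) * r (n + m + c)` for the numbers `p`, `q`, `r` of
members of three classes, some constant `C`, some even `c` and all `n`, `m`. -/
def PairIneq (P Q R : Finset (Sym2 P3) → Prop) : Prop :=
  ∃ (C : ℝ) (c : ℕ), Even c ∧ ∀ n m : ℕ,
    ((min n m : ℕ) : ℝ) * ((count P n : ℝ) * (count Q m : ℝ)) ≤
      C * ((n + m : ℕ) : ℝ) ^ (1 / 3 : ℝ) * (count R (n + m + c) : ℝ)

/-- The number of members with `n` edges divided by `n ^ (α - 3) * μ ^ n` tends to `A` along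
even `n`. -/
def Form (P : Finset (Sym2 P3) → Prop) (α μ A : ℝ) : Prop :=
  Tendsto (fun k : ℕ => (count P (2 * k) : ℝ) / (((2 * k : ℕ) : ℝ) ^ (α - 3) * μ ^ (2 * k)))
    atTop (𝓝 A)

/-- * Let `G` be a group of homeomorphisms of space that contains the translations and the
homeomorphisms of bounded support, and such that each homeomorphism `φ` lies in `G` or `φ ∘ swapR`
lies in `G`, where `swapR` is the reflection `(x, y, z) ↦ (y, x, z)` (for example all
homeomorphisms, or the orientation preserving ones). The pair inequality holds for the types of
lattice polygons `K`, `L` and their connected sums, and if the three asymptotic forms hold with the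
same growth rate then the exponents satisfy `α + β - 7/3 ≤ γ`. The pair inequality also holds with
the unknot for `L` and the type of `K` for the connected sums.
* For unknotted polygons, and for all polygons, the pair inequality holds, for all `n ≥ 1` the number
of polygons with `n` edges is at most `C * n ^ (-2/3) * μ ^ n`, where `μ` is the growth rate (limsup
of a bounded sequence, at least `1`), and if the asymptotic form holds then the exponent is at most
`7/3`. -/
theorem result :
    (∀ G : Subgroup (R3 ≃ₜ R3), BigGroup G → (∀ φ : R3 ≃ₜ R3, φ ∈ G ∨ φ * swapR ∈ G) →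
      ∀ K L : Finset (Sym2 P3), IsPolygon K → IsPolygon L →
        PairIneq (OfType G K) (OfType G L) (ConnSum G K L) ∧
        (∀ μ A B D α β γ : ℝ, 0 < μ → 0 < A → 0 < B → Form (OfType G K) α μ A →
          Form (OfType G L) β μ B → Form (ConnSum G K L) γ μ D → α + β - 7 / 3 ≤ γ) ∧
        PairIneq (OfType G K) Unknot (OfType G K)) ∧
    ∀ P : Finset (Sym2 P3) → Prop, P = Unknot ∨ P = IsPolygon →
      PairIneq P P P ∧
      (∃ C : ℝ, ∀ n : ℕ, 0 < n → (count P n : ℝ) ≤ C * (n : ℝ) ^ (-(2 / 3 : ℝ)) * growth P ^ n) ∧
      (∀ α A : ℝ, 0 < A → Form P α (growth P) A → α ≤ 7 / 3) ∧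
      1 ≤ growth P ∧ ∃ B : ℝ, ∀ n : ℕ, (count P n : ℝ) ≤ B ^ n := by
  refine ⟨fun G hG hG2 K L _ _ => ⟨?_, ?_, ?_⟩, fun P hP => ?_⟩
  · obtain ⟨C, c, -, hc, h⟩ := pair_types hG hG2 K L
    exact ⟨C, c, hc, h⟩
  · intro μ A B D α β γ hμ hA hB h1 h2 h3
    obtain ⟨C, c, hC, hc, h⟩ := pair_types hG hG2 K L
    exact exponent_pair hc (by positivity) hμ hA hB (pdiag hC h) h1 h2 h3
  · obtain ⟨C, c, hC, hc, h⟩ := pclean (CE := KClass K) (CF := UClass) (CR := KClass K)
      (KClass.move moveFacts K) unknotClosedZ.move (KClass.move moveFacts K)
      (fun F hF t => unknotClosedZ.trans t F hF) (fun E hE t => (ujoin_K K).shift E hE t)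
      (ujoin_K K).join (fun _ h => (h.sw).sz) (fun _ h => (h.sz).sw)
      (fun _ h => unknotClosedZ.swapYZ _ (unknotClosedZ.swapXY _ h))
      (fun _ h => unknotClosedZ.swapXY _ (unknotClosedZ.swapYZ _ h))
    refine ⟨2 * C, c, hc, fun n m => ?_⟩
    have h0 := h n m
    have hp : (count (OfType G K) n : ℝ) ≤ count (KClass K) n := by
      have : count (GClass G K) n ≤ count (KClass K) n :=
        sCount_mono (fun _ h => h.1) (fun _ h => h.kclass) n
      exact_mod_cast this
    have hr : (count (KClass K) (n + m + c) : ℝ) ≤ 2 * count (OfType G K) (n + m + c) := by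
      exact_mod_cast count_le_two G hG2 K (n + m + c)
    have hU : (0 : ℝ) ≤ count UClass m := Nat.cast_nonneg _
    calc ((min n m : ℕ) : ℝ) * ((count (OfType G K) n : ℝ) * (count UClass m : ℝ))
        ≤ ((min n m : ℕ) : ℝ) * ((count (KClass K) n : ℝ) * (count UClass m : ℝ)) :=
          mul_le_mul_of_nonneg_left (mul_le_mul_of_nonneg_right hp hU) (Nat.cast_nonneg _)
      _ ≤ C * ((n + m : ℕ) : ℝ) ^ (1 / 3 : ℝ) * (count (KClass K) (n + m + c) : ℝ) := h0
      _ ≤ C * ((n + m : ℕ) : ℝ) ^ (1 / 3 : ℝ) * (2 * count (OfType G K) (n + m + c)) :=
          mul_le_mul_of_nonneg_left hr (by positivity)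
      _ = _ := by ring
  · have hC : ClosedZ P := by
      rcases hP with rfl | rfl
      · exact unknotClosedZ
      · exact polyClosedZ
    have h1 := one_le_growth hC
    obtain ⟨D, c, -, hc, h⟩ := pair_closed hC
    obtain ⟨K, hK⟩ := mainStatementZ P hC
    obtain ⟨B, -, hb⟩ := count_le hC
    refine ⟨⟨D, c, hc, h⟩, ⟨K, hK⟩, fun α A hA hf => ?_, h1, B, hb⟩
    have e : (3 : ℝ) - 2 / 3 = 7 / 3 := by norm_num
    rw [← e]
    exact exponent_le (by linarith) hA hK hf

end Pool.Agent.Results.MP_aea6d5_co.PairTwoThirds
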