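import Pool.Agent.MP_aea6d5_co.SFin
import Pool.Agent.MP_aea6d5_co.SCrit

/-!
A pattern theorem for lattice polygons of a fixed knot type.

Let `μ` be the growth rate of the polygons of type `K`. At all large lengths `n` for which the
number of polygons of type `K` with `n` edges is at least `x ^ n`, where `x < μ` is close to `μ`
(for the unknot at all large even `n`), almost all polygons of type `K` with `n` edges contain
* at least `ε n` U-shapes (three sides of a unit square whose fourth side is not an edge), up to a
  fraction `c ^ n` with `c < 1`,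
* more than `ε n ^ (2/3)` translates of every finite set `Q` of edges which occurs arbitrarily often
  in unknotted polygons, up to a fraction `exp (- ε n ^ (2/3))`.

Proof of the second part. A small unknotted polygon `F` with two copies of `Q` far from each other
can be joined to a polygon `E` at a constant times `n ^ (2/3)` places, after local changes of bounded
size which preserve the knot types (see `UnknotTwoThirds`); one copy of `Q` survives and the number of
copies of `Q` increases by at most a constant `D`. The place is determined, up to boundedly many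
choices, by a copy of `Q` in the joined polygon, so a polygon with `j` copies has at most `L j`
predecessors. Starting with polygons with at most `ε n ^ (2/3)` copies and iterating `ε n ^ (2/3)`
times one gains a factor `(C / ε) ^ (ε n ^ (2/3))`, while the total number of polygons grows at
most by a factor `C ^ (ε n ^ (2/3))`, since consecutive ratios are bounded near `n`.
-/

set_option autoImplicit false

namespace Pool.Agent.Results.MP_aea6d5_co.PatternAllTypes

open Pool.Agent.LK Filter Topology

/-- The class of unknotted lattice polygons. -/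
def Unknot (E : Finset (Sym2 P3)) : Prop := IsPolygon E ∧ Unknotted E

/-- The class of lattice polygons which have the same knot type as `K` with respect to the group
`G` of homeomorphisms of space. -/
def OfType (G : Subgroup (R3 ≃ₜ R3)) (K E : Finset (Sym2 P3)) : Prop :=
  IsPolygon E ∧ ∃ φ ∈ G, φ '' body K = body E

/-- Twice the number of unit squares with vertices `x`, `x + d`, `y + d`, `y` such that the three
sides other than `xy` belong to `E` and `xy` does not: the number of ordered triples `(x, y, d)`. -/
noncomputable def uShapes (E : Finset (Sym2 P3)) : ℕ :=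
  {q : P3 × P3 × P3 | s(q.1, q.2.1) ∉ E ∧ IsUnit3 q.2.2 ∧ s(q.1, q.1 + q.2.2) ∈ E ∧
    s(q.1 + q.2.2, q.2.1 + q.2.2) ∈ E ∧ s(q.2.1 + q.2.2, q.2.1) ∈ E}.ncard

/-- The number of translates of `Q` contained in `E`. -/
noncomputable def copies (Q E : Finset (Sym2 P3)) : ℕ :=
  {t : P3 | mapE (fun u => u + t) Q ⊆ E}.ncard

/-- The set `Q` of edges occurs arbitrarily often in unknotted polygons. -/
def Proper (Q : Finset (Sym2 P3)) : Prop := ∀ k : ℕ, ∃ E, Unknot E ∧ k ≤ copies Q E

/-- **Pattern theorem for fixed knot types.** Let `G` be a group of homeomorphisms of space such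
that each homeomorphism `φ` lies in `G` or `φ ∘ swapR` lies in `G`, where `swapR` is the reflection
`(x, y, z) ↦ (y, x, z)` (for example all homeomorphisms, or the orientation preserving ones), and
let `K` be a lattice polygon. Let `μ` be the growth rate of the polygons of type `K` and `p n` the
number of those with `n` edges.

* For `x < μ` there are infinitely many even `n` with `x ^ n ≤ p n`, and for unknotted `K` all large
  even `n` have this property.
* There are `ε > 0`, `c < 1` and `x < μ` such that for all large `k` with `x ^ (2 * k) ≤ p (2 * k)`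
  the number of polygons of type `K` with `2 * k` edges and at most `ε * (2 * k)` U-shapes is at
  most `c ^ k * p (2 * k)`.
* For every proper `Q` there are `ε > 0` and `x < μ` such that for all large `k` with
  `x ^ (2 * k) ≤ p (2 * k)` the number of polygons of type `K` with `2 * k` edges and at most
  `ε * (2 * k) ^ (2/3)` copies of `Q` is at most `exp (- ε * (2 * k) ^ (2/3)) * p (2 * k)`.
* Every nonempty set of edges of an unknotted polygon which has no vertex in the highest and in the
  lowest level of the polygon is proper. -/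
theorem result (G : Subgroup (R3 ≃ₜ R3)) (hG : ∀ φ : R3 ≃ₜ R3, φ ∈ G ∨ φ * swapR ∈ G)
    (K : Finset (Sym2 P3)) (hK : IsPolygon K) :
    (∀ x : ℝ, 0 ≤ x → x < growth (OfType G K) →
      (∃ᶠ k : ℕ in atTop, x ^ (2 * k) ≤ (count (OfType G K) (2 * k) : ℝ)) ∧
      (Unknotted K → ∀ᶠ k : ℕ in atTop, x ^ (2 * k) ≤ (count (OfType G K) (2 * k) : ℝ))) ∧
    (∃ ε c x : ℝ, 0 < ε ∧ 0 < c ∧ c < 1 ∧ 0 < x ∧ x < growth (OfType G K) ∧
      ∀ᶠ k : ℕ in atTop, x ^ (2 * k) ≤ (count (OfType G K) (2 * k) : ℝ) →
        (count (fun E => OfType G K E ∧ (uShapes E : ℝ) ≤ ε * (2 * k : ℕ)) (2 * k) : ℝ) ≤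
          c ^ k * (count (OfType G K) (2 * k) : ℝ)) ∧
    (∀ Q : Finset (Sym2 P3), Proper Q →
      ∃ ε x : ℝ, 0 < ε ∧ 0 < x ∧ x < growth (OfType G K) ∧
      ∀ᶠ k : ℕ in atTop, x ^ (2 * k) ≤ (count (OfType G K) (2 * k) : ℝ) →
        (count (fun E => OfType G K E ∧
          (copies Q E : ℝ) ≤ ε * ((2 * k : ℕ) : ℝ) ^ (2 / 3 : ℝ)) (2 * k) : ℝ) ≤
          Real.exp (-(ε * ((2 * k : ℕ) : ℝ) ^ (2 / 3 : ℝ))) *
            (count (OfType G K) (2 * k) : ℝ)) ∧
    ∀ Q E : Finset (Sym2 P3), Q.Nonempty → Q ⊆ E → Unknot E →
      (∀ u ∈ verts Q, (∃ v ∈ verts E, v.2.2 < u.2.2) ∧ ∃ v ∈ verts E, u.2.2 < v.2.2) →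
      Proper Q := by
  refine ⟨fun x hx0 hx => ⟨sNear_freq (C := OfType G K) (fun E h => h.1) hx0 hx,
    fun hu => sNear_unknot hG hu hx0 hx⟩, ?_, ?_, ?_⟩
  · obtain ⟨ε, c, x, h1, h2, h3, h4, h5, h6⟩ := sG_few hG hK
    exact ⟨ε, c, x, h1, h2, h3, by linarith, h5, h6⟩
  · intro Q hQ
    obtain ⟨ε, x, h1, h2, h3, h4⟩ := sG_fewQ hG hK (Q := Q) hQ
    exact ⟨ε, x, h1, by linarith, h3, h4⟩
  · intro Q E hne hQE hE hin
    exact frequent_of_inner (E := E) hE hQE hne fun u hu => ⟨(hin u hu).2, (hin u hu).1⟩

end Pool.Agent.Results.MP_aea6d5_co.PatternAllTypes
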