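import Pool.Agent.MP_aea6d5_co.RDone

/-!
The ratio limit theorem for lattice polygons of a fixed knot type.

Write `p n K` for the number of polygons of the simple cubic lattice with `n` edges and knot type
`K`, up to translation. If the asymptotic form of Q1 holds for `K`, with growth rate `μ`, then
`p (n + 2) K / p n K` tends to `μ ^ 2` along even `n`. This is proved here for the unknot, and for
every knot type `K` for which the `n`-th roots of `p n K` converge.

Outline of the proof.
* A bump replaces an edge `xy` by the three other sides of a unit square `x, x+d, y+d, y` whose
  vertices `x+d, y+d` are free. Its inverse contracts a U-shape: three sides of a unit square in the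
  polygon, the fourth not. Both preserve the knot type, a U-shape can always be contracted, and
  (polygon, bump) ↔ (polygon, U-shape) is a bijection. The numbers `a` of U-shapes and `b` of
  bumps change by a bounded amount under a bump.
* Polygons with at most `ε n` U-shapes and at most `ε n` bumps: at most `3.74 ^ n`. This follows
  from a double counting of the contacts of the polygon and a Kraft inequality for the next step of
  a walk. Polygons with few U-shapes and many bumps are exponentially rare compared with all
  polygons of their type.
* The growth rate of the unknot is at least `3.75`: polygons made of two strands.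
* Hence almost all polygons of type `K` have at least `ε n` U-shapes, `p (n + 2) / p n` is the mean
  of `b / a` up to `O(1/n)`, and `p (n + 4) / p n` is at least the mean of its square, so the ratio
  `r` satisfies `r (n + 2) ≥ r n - A / n`. With the convergence of the `n`-th roots this gives the
  ratio limit.
-/

set_option autoImplicit false

namespace Pool.Agent.Results.MP_aea6d5_co.RatioLimit

open Pool.Agent.LK Filter Topology

/-- The class of unknotted lattice polygons. -/
def Unknot (E : Finset (Sym2 P3)) : Prop := IsPolygon E ∧ Unknotted E

/-- The class of lattice polygons which have the same knot type as `K` with respect to the group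
`G` of homeomorphisms of space. -/
def OfType (G : Subgroup (R3 ≃ₜ R3)) (K E : Finset (Sym2 P3)) : Prop :=
  IsPolygon E ∧ ∃ φ ∈ G, φ '' body K = body E

/-- **The ratio limit theorem.**

* The ratio of the numbers of unknotted polygons with `2 * k + 2` and `2 * k` edges tends to the
  square of their growth rate.
* Let `G` be a group of homeomorphisms of space such that each homeomorphism `φ` lies in `G` or
  `φ ∘ swapR` lies in `G`, where `swapR` is the reflection `(x, y, z) ↦ (y, x, z)` (for example all
  homeomorphisms, or the orientation preserving ones), and let `K` be a lattice polygon. If the
  `n`-th roots of the numbers of polygons of type `K` with `n` edges converge to `μ` along even `n`,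
  then the ratios of these numbers for `2 * k + 2` and `2 * k` tend to `μ ^ 2`. -/
theorem result :
    Tendsto (fun k : ℕ => (count Unknot (2 * k + 2) : ℝ) / (count Unknot (2 * k) : ℝ)) atTop
      (𝓝 (growth Unknot ^ 2)) ∧
    ∀ G : Subgroup (R3 ≃ₜ R3), (∀ φ : R3 ≃ₜ R3, φ ∈ G ∨ φ * swapR ∈ G) →
      ∀ K : Finset (Sym2 P3), IsPolygon K → ∀ μ : ℝ,
        Tendsto (fun k : ℕ => (count (OfType G K) (2 * k) : ℝ) ^ (((2 * k : ℕ) : ℝ)⁻¹)) atTop
          (𝓝 μ) →
        Tendsto (fun k : ℕ => (count (OfType G K) (2 * k + 2) : ℝ) /
          (count (OfType G K) (2 * k) : ℝ)) atTop (𝓝 (μ ^ 2)) :=
  ratioLimit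

end Pool.Agent.Results.MP_aea6d5_co.RatioLimit
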