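import Pool.Agent.KTube.TubeThm

/-!
The asymptotic form of the number of lattice knots in tubes, for the unknot and all prime knots.

Lattice polygons in the tube `[0, L] × [0, M] × ℤ`, up to translations along the tube, with `n`
edges and weight `y ^ span`; `Z n K` is the sum of the weights of those of knot type `K` (their
number, if `y = 1`). For the tubes and the forces in `Covered` (all tubes with two adjacent columns
if `y ≥ 58`, all tubes in which nontrivial knots can occur if `y ≥ 29`, and the tubes `2 × 1`,
`3 × 1`, `2 × 2` for every `y ≥ 1`, in particular without any force) there is `μ > 0` such that,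
along even `n` and with an exponentially small error,

* `Z n unknot / μ ^ n = A + O(θ ^ n)` with `A > 0`,
* `Z n K / μ ^ n = A_K * n + B_K + O(θ ^ n)` with `A_K > 0`, for every prime knot `K` that occurs in
  the tube.

Outline of the proof.
* Sections. A plane which cuts the polygon in exactly the two edges over the reference columns
  `(0,0)`, `(1,0)` cuts it into two closed parts; the polygon is their connected sum (stretching
  by two levels gives the stacked join). For the unknot all parts are unknotted (knots do not
  cancel), for a prime knot exactly one part is knotted and it has the type of the polygon.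
* Gap. Polygons with few planes that cut them in exactly two edges have a smaller growth rate than
  the unknotted polygons: word bounds, and transfer matrices with rational certificates for the
  small tubes. Polygons with two strands are unknotted (straightening by plane similarities).
* Detours. At a section with two edges both strands can walk to the reference columns and back,
  without changing the type. A multivalued map argument shows that polygons without reference
  sections, of a given type, have a smaller growth rate than all polygons of that type. Applied to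
  the knotted part of a prime knot this gives that all parts without inner reference sections have a
  growth rate smaller than that of the unknotted polygons.
* Renewal. The unknotted polygons form a renewal sequence, with exponentially small defects; for a
  prime knot one extra factor gives the term linear in `n`.
-/

set_option autoImplicit false

namespace Pool.Agent.Results.MP_aea6d5_co.Tubes

open Pool.Agent.LK Pool.Agent.KTube

/-- The class of unknotted lattice polygons. -/
def Unknot (E : Finset (Sym2 P3)) : Prop := IsPolygon E ∧ Unknotted E

/-- The class of lattice polygons which have the same knot type as `K` with respect to the group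
`G` of homeomorphisms of space. -/
def OfType (G : Subgroup (R3 ≃ₜ R3)) (K E : Finset (Sym2 P3)) : Prop :=
  IsPolygon E ∧ ∃ φ ∈ G, φ '' body K = body E

/-- Let `G` be a group of homeomorphisms of space that contains the translations and such that
each homeomorphism `φ` lies in `G` or `φ ∘ negY` lies in `G`, where `negY` is the reflection
`(x, y, z) ↦ (x, -y, z)` (for example all homeomorphisms, or the orientation preserving ones). Let
the tube `[0, L] × [0, M] × ℤ` and the weight `y` be such that `y ≥ 58` and `L ≥ 1`, or `y ≥ 29`,
`L ≥ 2` and `M ≥ 1`, or `y ≥ 23`, `L ≥ 2` and `M ≥ 2`, or `y ≥ 1` and the tube is `2 × 1`, `3 × 1`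
or `2 × 2`. Then there is `μ > 0` such that, with `n = 2 k`,

* the partition function of the unknotted polygons with `n` edges in the tube, divided by `μ ^ n`,
  is `A + O(θ ^ k)` with `A > 0` and `θ < 1`;
* for every prime knot `K` whose type occurs in the tube, the partition function of the polygons
  with `n` edges in the tube of the type of `K`, divided by `μ ^ n`, is `A n + B + O(θ ^ k)` with
  `A > 0` and `θ < 1`. -/
theorem result (G : Subgroup (R3 ≃ₜ R3)) (hG : ∀ t : R3, Homeomorph.addRight t ∈ G)
    (hG' : ∀ φ : R3 ≃ₜ R3, φ ∈ G ∨ φ * negY ∈ G) (L M : ℕ) (y : ℝ)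
    (h : (58 ≤ y ∧ 1 ≤ L) ∨ (29 ≤ y ∧ 2 ≤ L ∧ 1 ≤ M) ∨ (23 ≤ y ∧ 2 ≤ L ∧ 2 ≤ M) ∨
      (1 ≤ y ∧ ((L = 2 ∧ M = 1) ∨ (L = 3 ∧ M = 1) ∨ (L = 2 ∧ M = 2)))) :
    ∃ μ : ℝ, 0 < μ ∧
      (∃ A C θ : ℝ, 0 < A ∧ 0 < θ ∧ θ < 1 ∧
        ∀ k : ℕ, |Z L M y Unknot (2 * k) / μ ^ (2 * k) - A| ≤ C * θ ^ k) ∧
      ∀ K : Finset (Sym2 P3), PrimeKnot K → (∃ E, OfType G K E ∧ InTube L M E) →
        ∃ A B C θ : ℝ, 0 < A ∧ 0 < θ ∧ θ < 1 ∧
          ∀ k : ℕ, |Z L M y (OfType G K) (2 * k) / μ ^ (2 * k) - (A * (2 * k : ℕ) + B)| ≤
            C * θ ^ k := by
  obtain ⟨μ, hμ, ⟨A, hA, C, θ, -, h1, h2, h3⟩, hK⟩ := tube_group G hG hG' (L := L) (M := M) h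
  refine ⟨μ, hμ, ⟨A, C, θ, hA, h1, h2, h3⟩, ?_⟩
  intro K hP hE
  obtain ⟨A, B, hA, C, θ, -, h1, h2, h3⟩ := hK K hP hE
  exact ⟨A, B, C, θ, hA, h1, h2, h3⟩

end Pool.Agent.Results.MP_aea6d5_co.Tubes
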