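import Pool.Agent.MP_aea6d5_co.RDone

/-!
A pattern theorem for unknotted lattice polygons: all but an exponentially small fraction of the
unknotted polygons with `n` edges contain at least `ε n` U-shapes (three sides of a unit square
whose fourth side is not an edge of the polygon).

The proof is part of the proof of the ratio limit theorem: contraction of a U-shape and its inverse
preserve the knot type, polygons with few U-shapes and few places for the inverse move have growth
rate less than `3.75`, which is a lower bound for the growth rate of the unknot, and those with few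
U-shapes and many places for the inverse move are rare because each of them gives many longer
polygons with few U-shapes.
-/

set_option autoImplicit false

namespace Pool.Agent.Results.MP_aea6d5_co.UShapePattern

open Pool.Agent.LK Filter Topology

/-- The class of unknotted lattice polygons. -/
def Unknot (E : Finset (Sym2 P3)) : Prop := IsPolygon E ∧ Unknotted E

/-- Twice the number of unit squares with vertices `x`, `x + d`, `y + d`, `y` such that the three
sides other than `xy` belong to `E` and `xy` does not: the number of ordered triples `(x, y, d)`. -/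
noncomputable def uShapes (E : Finset (Sym2 P3)) : ℕ :=
  {q : P3 × P3 × P3 | s(q.1, q.2.1) ∉ E ∧ IsUnit3 q.2.2 ∧ s(q.1, q.1 + q.2.2) ∈ E ∧
    s(q.1 + q.2.2, q.2.1 + q.2.2) ∈ E ∧ s(q.2.1 + q.2.2, q.2.1) ∈ E}.ncard

/-- **Pattern theorem for the unknot.** There are `ε > 0` and `c < 1` such that for all large `k`
the number of unknotted polygons with `2 * k` edges and at most `ε * (2 * k)` U-shapes is at most
`c ^ k` times the number of all unknotted polygons with `2 * k` edges (both up to translation);
and there are unknotted polygons with `2 * k` edges. -/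
theorem result : ∃ ε c : ℝ, 0 < ε ∧ 0 < c ∧ c < 1 ∧ ∀ᶠ k : ℕ in atTop,
    0 < count Unknot (2 * k) ∧
    (count (fun E => Unknot E ∧ (uShapes E : ℝ) ≤ ε * (2 * k : ℕ)) (2 * k) : ℝ) ≤
      c ^ k * (count Unknot (2 * k) : ℝ) := by
  obtain ⟨ε, c, h1, h2, h3, h4⟩ := few_all UClass (growth UClass) (bumpClass_U localFacts)
    (limitStatement UClass unknotClosedZ) (lower_all UClass unknotClosedZ)
  refine ⟨ε, c, h1, h2, h3, ?_⟩
  have hpos := (limitStatement UClass unknotClosedZ).eventually_pos
    (lt_of_lt_of_le (by norm_num) (lower_all UClass unknotClosedZ))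
  filter_upwards [h4, hpos] with k hk hk'
  refine ⟨hk', ?_⟩
  have e : count (fun E => Unknot E ∧ (uShapes E : ℝ) ≤ ε * (2 * k : ℕ)) (2 * k) =
      few UClass ε (2 * k) := by
    classical
    unfold few count
    rw [← Set.ncard_coe_finset]
    congr 1
    ext E
    simp only [Finset.coe_filter, Set.mem_ofPred_eq,
      mem_U' (C := UClass) (fun E h => h.1)]
    constructor
    · rintro ⟨⟨g1, g2⟩, g3, g4⟩
      exact ⟨⟨g1, g3, g4⟩, g2⟩
    · rintro ⟨⟨g1, g3, g4⟩, g2⟩
      exact ⟨⟨g1, g2⟩, g3, g4⟩
  rw [e]
  exact hk

end Pool.Agent.Results.MP_aea6d5_co.UShapePattern
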