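import Pool.Agent.MP_aea6d5_co.Main

/-!
A polynomial upper bound for the number of unknotted polygons of the simple cubic lattice.

Write `p n` for the number of unknotted polygons with `n` edges up to translation and `μ` for their
growth rate (the limsup of the `n`-th roots). We prove `p n ≤ K * n ^ (-2/3) * μ ^ n` for all `n`.
Hence, if the asymptotic form of Q1 holds for the unknot, then its exponent satisfies `α ≤ 7/3`.
The same holds for the number of all polygons.

Outline of the proof.
* Contacts. For polygons `P`, `Q` let `D` be the set of differences of vertices. Over each point of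
  the projection of `D` to the `xy`-plane take the last point at distance at most `R` (a large
  constant) of `D`. The nearest point `d` of `D` gives a position of `Q` above `P` where `P` and
  `Q` lie locally in opposite half spaces. There are at least a constant times `n ^ (2/3)`
  different contacts `d` for a third of all `P` (Loomis-Whitney inequality and symmetry).
* Surgery. A bounded number of bumps and flips of `P` near the contact produces a tongue whose tip
  is a horizontal edge which points upwards; the same for `Q` downwards. The two tips are joined.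
* The join is a connected sum: a vertical shear flattens a surface between `P` and `Q`. A version
  for pairs of Brown's theorem on monotone unions of open cells shows that the joined polygon is
  unknotted if both parts are.
* Decoding. A joined polygon has only boundedly many such cuts into two parts of nearly equal
  lengths. Hence `n ^ (2/3) * p n ^ 2` is at most a constant times
  `p (2 n - c) + ... + p (2 n + c)`, and the pointwise bound follows by iteration.
-/

set_option autoImplicit false

namespace Pool.Agent.Results.MP_aea6d5_co.UnknotTwoThirds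

open Pool.Agent.LK Filter Topology

/-- The class of unknotted lattice polygons. -/
def Unknot (E : Finset (Sym2 P3)) : Prop := IsPolygon E ∧ Unknotted E

/-- For all `n ≥ 1` the number of unknotted polygons with `n` edges is at most
`K * n ^ (-2/3) * μ ^ n`; if the number divided by `n ^ (α - 3) * μ ^ n` has a positive limit along
even `n` then `α ≤ 7/3`; the same two statements for the number of all polygons. The growth
rates `μ` are limsups of bounded sequences and at least `1`. -/
theorem result :
    (∃ K : ℝ, ∀ n : ℕ, 0 < n →
      (count Unknot n : ℝ) ≤ K * (n : ℝ) ^ (-(2 / 3 : ℝ)) * growth Unknot ^ n) ∧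
    (∀ A α : ℝ, 0 < A →
      Tendsto (fun k : ℕ => (count Unknot (2 * k) : ℝ) /
        (((2 * k : ℕ) : ℝ) ^ (α - 3) * growth Unknot ^ (2 * k))) atTop (𝓝 A) → α ≤ 7 / 3) ∧
    (∃ K : ℝ, ∀ n : ℕ, 0 < n →
      (count IsPolygon n : ℝ) ≤ K * (n : ℝ) ^ (-(2 / 3 : ℝ)) * growth IsPolygon ^ n) ∧
    (∀ A α : ℝ, 0 < A →
      Tendsto (fun k : ℕ => (count IsPolygon (2 * k) : ℝ) /
        (((2 * k : ℕ) : ℝ) ^ (α - 3) * growth IsPolygon ^ (2 * k))) atTop (𝓝 A) → α ≤ 7 / 3) ∧
    1 ≤ growth Unknot ∧ 1 ≤ growth IsPolygon ∧
    (∃ B : ℝ, ∀ n : ℕ, (count Unknot n : ℝ) ≤ B ^ n ∧ (count IsPolygon n : ℝ) ≤ B ^ n) := by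
  have hU : ClosedZ Unknot := unknotClosedZ
  have hP : ClosedZ IsPolygon := polyClosedZ
  obtain ⟨K, hK⟩ := mainStatementZ Unknot hU
  obtain ⟨K', hK'⟩ := mainStatementZ IsPolygon hP
  have h1 := one_le_growth hU
  have h2 := one_le_growth hP
  obtain ⟨B, hB, hb⟩ := count_le hU
  obtain ⟨B', hB', hb'⟩ := count_le hP
  have e : (3 : ℝ) - 2 / 3 = 7 / 3 := by norm_num
  refine ⟨⟨K, hK⟩, fun A α hA h => ?_, ⟨K', hK'⟩, fun A α hA h => ?_, h1, h2, max B B',
    fun n => ⟨?_, ?_⟩⟩
  · rw [← e]; exact exponent_le (by linarith) hA hK h
  · rw [← e]; exact exponent_le (by linarith) hA hK' h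
  · exact (hb n).trans (pow_le_pow_left₀ (by linarith) (le_max_left _ _) n)
  · exact (hb' n).trans (pow_le_pow_left₀ (by linarith) (le_max_right _ _) n)

end Pool.Agent.Results.MP_aea6d5_co.UnknotTwoThirds
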